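import Pool.Agent.Work.MP_70e905_nt.CL3.Defs

/-!
# More than a quarter of the clusters are hit simultaneously
-/

namespace PoolSim

open Finset Classical PoolCL

theorem hits (N : ℕ) (hN : 1 ≤ N) (p : ℝ) (hp : 1 / 4 < p) (HC : ClusterP N p) :
    ∃ L D₁ : ℕ, 0 < L ∧ ∀ W A₀ C : ℕ, 0 < W → primorial D₁ ∣ W → ∃ X₀ : ℕ,
    ∀ (x v : ℕ) (a b : Fin N × Fin L → ℕ), X₀ ≤ x →
      (∀ i, 1 ≤ a i ∧ a i ≤ A₀) → (∀ i, ∀ p : ℕ, p.Prime → p ∣ a i → p ∣ W) →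
      (∀ i, b i ≤ C * x) → (∀ i, (a i * v + b i).Coprime W) →
      (∀ i j, i ≠ j → a i * b j ≠ a j * b i) →
      ∃ z : ℕ, x < z ∧ z ≤ 2 * x ∧ z ≡ v [MOD W] ∧ ∃ T : Finset (Fin N), N < 4 * #T ∧
        ∀ c ∈ T, ∃ l : Fin L, (a (c, l) * z + b (c, l)).Prime := by
  obtain ⟨L, D₁, hL, H⟩ := HC
  refine ⟨L, D₁, hL, fun W A₀ C hW hD => ?_⟩
  obtain ⟨X₀, hX₀⟩ := H W A₀ C hW hD
  refine ⟨X₀, fun x v a b hx h1 h2 h3 h4 h5 => ?_⟩
  obtain ⟨w, hw0, hw1, hw2⟩ := hX₀ x v a b hx h1 h2 h3 h4 h5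
  by_contra hcon
  push Not at hcon
  set Z : Finset ℕ := (Ioc x (2 * x)).filter (fun z => z ≡ v [MOD W]) with hZ
  set T : ℕ → Finset (Fin N) := fun z =>
    univ.filter (fun c => ∃ l : Fin L, (a (c, l) * z + b (c, l)).Prime) with hT
  have h6 : ∀ z ∈ Z, 4 * #(T z) ≤ N := by
    intro z hz
    obtain ⟨hz1, hz2⟩ := mem_filter.1 hz
    rw [mem_Ioc] at hz1
    by_contra hlt
    push Not at hlt
    obtain ⟨c, hc, hc2⟩ := hcon z hz1.1 hz1.2 hz2 (T z) hlt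
    obtain ⟨l, hl⟩ := (mem_filter.1 hc).2
    exact hc2 l hl
  have h7 : ∑ c : Fin N, ∑ z ∈ (Ioc x (2 * x)).filter (fun z => z ≡ v [MOD W] ∧
      ∃ i : Fin L, (a (c, i) * z + b (c, i)).Prime), w z = ∑ z ∈ Z, (#(T z) : ℝ) * w z := by
    have h8 : ∀ c : Fin N, ∑ z ∈ (Ioc x (2 * x)).filter (fun z => z ≡ v [MOD W] ∧
        ∃ i : Fin L, (a (c, i) * z + b (c, i)).Prime), w z =
        ∑ z ∈ Z, if ∃ i : Fin L, (a (c, i) * z + b (c, i)).Prime then w z else 0 := by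
      intro c
      rw [← sum_filter, hZ, filter_filter]
    rw [sum_congr rfl (fun c _ => h8 c), sum_comm]
    refine sum_congr rfl fun z _ => ?_
    rw [← sum_filter, sum_const, nsmul_eq_mul]
  have h8 : (N : ℝ) * p ≤ ∑ z ∈ Z, (#(T z) : ℝ) * w z := by
    rw [← h7]
    calc (N : ℝ) * p = ∑ c : Fin N, p := by simp
      _ ≤ _ := sum_le_sum fun c _ => hw2 c
  have h9 : ∑ z ∈ Z, (#(T z) : ℝ) * w z ≤ ∑ z ∈ Z, (N / 4 : ℝ) * w z := by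
    refine sum_le_sum fun z hz => mul_le_mul_of_nonneg_right ?_ (hw0 z)
    have : ((4 * #(T z) : ℕ) : ℝ) ≤ (N : ℝ) := by exact_mod_cast h6 z hz
    push_cast at this
    linarith
  rw [← mul_sum, hw1, mul_one] at h9
  have hN0 : (1 : ℝ) ≤ N := by exact_mod_cast hN
  nlinarith

end PoolSim
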