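import Pool.Agent.Work.MP_70e905_nt.Sim.Mono
import Pool.Agent.Work.MP_70e905_nt.CL3.Defs

/-!
# Simultaneous pairs

`KK 0 = 1`, `KK (k + 1) = 4 * KK k - 1` (so `KK k = (2 * 4 ^ k + 1) / 3`: `1, 3, 11, 43, ...`).

If for each of `k` relations `good i` every family of `N` clusters of `Lf N` naturals has more than `N / 4`
clusters which pairwise contain good pairs, then every family of `KK k + 1` clusters of `L'` naturals has
two elements in different clusters which are good for all `k` relations.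
-/

namespace PoolSim

open Finset Classical

/-- the number of clusters minus one -/
def KK : ℕ → ℕ
  | 0 => 1
  | k + 1 => 4 * KK k - 1

theorem KK_pos (k : ℕ) : 1 ≤ KK k := by
  induction k with
  | zero => exact le_rfl
  | succ k ih =>
    have : KK (k + 1) = 4 * KK k - 1 := rfl
    omega

theorem KK_eq (k : ℕ) : 3 * KK k = 2 * 4 ^ k + 1 := by
  induction k with
  | zero => rfl
  | succ k ih =>
    have h1 : KK (k + 1) = 4 * KK k - 1 := rfl
    have h2 := KK_pos k
    rw [h1, pow_succ]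
    omega

theorem KK_real (k : ℕ) : 1 / (KK k : ℝ) = 3 / (2 * 4 ^ k + 1) := by
  have h1 : (3 : ℝ) * KK k = 2 * 4 ^ k + 1 := by exact_mod_cast KK_eq k
  have h2 : (KK k : ℝ) ≠ 0 := by
    have := KK_pos k
    positivity
  rw [← h1]
  field_simp

/-- more than a quarter of the clusters pairwise contain good pairs -/
def HitS (A : Set ℕ) (N L : ℕ) (good : ℕ → ℕ → Prop) : Prop :=
  ∀ h : Fin N × Fin L → ℕ, Function.Injective h → (∀ s, h s ∈ A) →
    ∃ T : Finset (Fin N), N < 4 * #T ∧
      ∀ c ∈ T, ∀ c' ∈ T, c ≠ c' → ∃ l l', good (h (c, l)) (h (c', l'))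

/-- a set of naturals with at least `L` elements, as an injective function on `Fin L` -/
theorem exists_enum (L : ℕ) (B : Finset ℕ) (hB : L ≤ #B) :
    ∃ φ : Fin L → ℕ, Function.Injective φ ∧ ∀ l, φ l ∈ B := by
  obtain ⟨B', hB1, hB2⟩ := exists_subset_card_eq hB
  refine ⟨fun l => (B'.equivFinOfCardEq hB2).symm l, ?_,
    fun l => hB1 ((B'.equivFinOfCardEq hB2).symm l).2⟩
  intro a b hab
  exact (B'.equivFinOfCardEq hB2).symm.injective (Subtype.ext hab)

theorem simul (k : ℕ) (Lf : ℕ → ℕ) : ∃ L' : ℕ, ∀ (A : Set ℕ) (good : Fin k → ℕ → ℕ → Prop),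
    (∀ i N, 1 ≤ N → N ≤ KK k + 1 → HitS A N (Lf N) (good i)) →
    ∀ h : Fin (KK k + 1) × Fin L' → ℕ, Function.Injective h → (∀ s, h s ∈ A) →
      ∃ s t, s.1 ≠ t.1 ∧ ∀ i, good i (h s) (h t) := by
  induction k with
  | zero =>
    refine ⟨1, fun A good _ h _ _ => ⟨(⟨0, by simp⟩, 0), (⟨1, by simp [KK]⟩, 0), ?_, fun i => i.elim0⟩⟩
    intro h
    have := congrArg Fin.val h
    simp at this
  | succ k ih =>
    obtain ⟨L₀, hL₀⟩ := ih
    have hKpos := KK_pos k
    have hKK : KK (k + 1) + 1 = 4 * KK k := by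
      have : KK (k + 1) = 4 * KK k - 1 := rfl
      omega
    set N : ℕ := KK (k + 1) + 1 with hN
    obtain ⟨L', hLL', hmono⟩ := mono_pairs (k := 2) (m := N) (by norm_num) univ
      (max (max L₀ (Lf N)) 1) (le_max_right _ _)
    refine ⟨L', fun A good hgood h hinj hA => ?_⟩
    -- homogenize with respect to the last relation
    obtain ⟨B, hB1, hB2, hB3⟩ := hmono (fun x y => if good (Fin.last k) x y then 1 else 0)
      (fun i => (univ : Finset (Fin L')).image (fun l => h (i, l))) (by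
        intro i
        rw [card_image_of_injective, card_univ, Fintype.card_fin]
        intro a b hab
        exact (Prod.mk.inj (hinj hab)).2)
    have hmem : ∀ i, ∀ x ∈ B i, ∃ l, h (i, l) = x := by
      intro i x hx
      obtain ⟨l, _, hl⟩ := mem_image.1 (hB1 i hx)
      exact ⟨l, hl⟩
    have hdisj : ∀ i j, ∀ x ∈ B i, x ∈ B j → i = j := by
      intro i j x hx hx'
      obtain ⟨l, hl⟩ := hmem i x hx
      obtain ⟨l', hl'⟩ := hmem j x hx'
      exact (Prod.mk.inj (hinj (hl.trans hl'.symm))).1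
    have hall : ∀ i j, i ≠ j → (∃ x ∈ B i, ∃ y ∈ B j, good (Fin.last k) x y) →
        ∀ x ∈ B i, ∀ y ∈ B j, good (Fin.last k) x y := by
      rintro i j hij ⟨x, hx, y, hy, hxy⟩ x' hx' y' hy'
      obtain ⟨χ, hχ⟩ := hB3 (i, j) (mem_univ _) hij
      have h1 := hχ x hx y hy
      have h2 := hχ x' hx' y' hy'
      simp only [hxy, if_true] at h1
      rw [← h1] at h2
      by_contra hcon
      simp only [hcon, if_false] at h2
      exact absurd h2 (by decide)
    -- the hit clusters
    obtain ⟨f, hf1, hf2⟩ : ∃ f : Fin N → Fin (Lf N) → ℕ, (∀ i, Function.Injective (f i)) ∧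
        ∀ i l, f i l ∈ B i := by
      have := fun i => exists_enum (Lf N) (B i)
        (((le_max_right _ _).trans (le_max_left _ _)).trans (hB2 i))
      choose f hf1 hf2 using this
      exact ⟨f, hf1, hf2⟩
    obtain ⟨T, hT1, hT2⟩ := hgood (Fin.last k) N (by omega) le_rfl (fun s => f s.1 s.2) (by
      rintro ⟨i, a⟩ ⟨j, b⟩ hab
      simp only at hab
      have hij : i = j := hdisj i j _ (hf2 i a) (by rw [hab]; exact hf2 j b)
      subst hij
      rw [hf1 i hab]) (by
      rintro ⟨i, a⟩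
      obtain ⟨l, hl⟩ := hmem i _ (hf2 i a)
      simp only
      rw [← hl]
      exact hA _)
    have hTK : KK k + 1 ≤ #T := by omega
    obtain ⟨T', hT'T, hT'c⟩ := exists_subset_card_eq hTK
    set g : Fin (KK k + 1) → Fin N := fun i => (T'.equivFinOfCardEq hT'c).symm i with hg
    have hgT : ∀ i, g i ∈ T := fun i => hT'T ((T'.equivFinOfCardEq hT'c).symm i).2
    have hginj : Function.Injective g := fun a b hab =>
      (T'.equivFinOfCardEq hT'c).symm.injective (Subtype.ext hab)
    obtain ⟨f', hf'1, hf'2⟩ : ∃ f' : Fin N → Fin L₀ → ℕ, (∀ i, Function.Injective (f' i)) ∧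
        ∀ i l, f' i l ∈ B i := by
      have := fun i => exists_enum L₀ (B i)
        (((le_max_left _ _).trans (le_max_left _ _)).trans (hB2 i))
      choose f hf1 hf2 using this
      exact ⟨f, hf1, hf2⟩
    obtain ⟨s, t, hst, hst'⟩ := hL₀ A (fun i => good i.castSucc)
      (fun i M hM hM2 => hgood _ M hM (by omega))
      (fun s => f' (g s.1) s.2) (by
        rintro ⟨i, a⟩ ⟨j, b⟩ hab
        simp only at hab
        have hij : g i = g j := hdisj _ _ _ (hf'2 _ a) (by rw [hab]; exact hf'2 _ b)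
        have hij' : i = j := hginj hij
        subst hij'
        rw [hf'1 _ hab]) (by
        rintro ⟨i, a⟩
        obtain ⟨l, hl⟩ := hmem _ _ (hf'2 (g i) a)
        simp only
        rw [← hl]
        exact hA _)
    have hne : g s.1 ≠ g t.1 := fun h => hst (hginj h)
    obtain ⟨l, hl⟩ := hmem _ _ (hf'2 (g s.1) s.2)
    obtain ⟨l', hl'⟩ := hmem _ _ (hf'2 (g t.1) t.2)
    refine ⟨(g s.1, l), (g t.1, l'), hne, fun i => ?_⟩
    rw [hl, hl']
    refine Fin.lastCases ?_ (fun i => hst' i) i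
    obtain ⟨a, b, hab⟩ := hT2 _ (hgT s.1) _ (hgT t.1) hne
    exact hall _ _ hne ⟨_, hf2 _ a, _, hf2 _ b, hab⟩ _ (hf'2 _ _) _ (hf'2 _ _)

end PoolSim
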