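import Mathlib

/-!
# Moving a coprimality condition from `v + a g` to `v' + a n`, `g ∣ n`
-/

namespace PoolSim

open Finset

theorem exists_crt (D : ℕ) (c : ℕ → ℕ) : ∃ v : ℕ, ∀ p : ℕ, p.Prime → p ≤ D → v ≡ c p [MOD p] := by
  classical
  obtain ⟨v, hv⟩ := Nat.chineseRemainderOfFinset c (fun p => p)
    ((range (D + 1)).filter Nat.Prime) (by
      intro p hp
      exact (mem_filter.1 hp).2.ne_zero) (by
      intro p hp q hq hpq
      exact (Nat.coprime_primes (mem_filter.1 (mem_coe.1 hp)).2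
        (mem_filter.1 (mem_coe.1 hq)).2).2 hpq)
  exact ⟨v, fun p hp hpD => hv p (mem_filter.2 ⟨mem_range.2 (by omega), hp⟩)⟩

theorem coprime_primorial (D a : ℕ) : a.Coprime (primorial D) ↔ ∀ p : ℕ, p.Prime → p ≤ D → ¬ p ∣ a := by
  constructor
  · intro h p hp hpD hpa
    have h1 : p ∣ primorial D := by
      unfold primorial
      exact dvd_prod_of_mem (fun p => p) (mem_filter.2 ⟨mem_range.2 (by omega), hp⟩)
    have h2 := Nat.dvd_gcd hpa h1
    rw [h] at h2
    exact hp.one_lt.ne' (Nat.dvd_one.1 h2)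
  · intro h
    unfold primorial
    apply Nat.Coprime.prod_right
    intro p hp
    rw [mem_filter, mem_range] at hp
    rw [Nat.coprime_comm, hp.2.coprime_iff_not_dvd]
    exact h p hp.2 (by omega)

theorem exists_shift (D g n v : ℕ) (hg : g ∣ n) : ∃ v' : ℕ, ∀ a : ℕ,
    (v + a * g).Coprime (primorial D) → (v' + a * n).Coprime (primorial D) := by
  classical
  obtain ⟨u, rfl⟩ := hg
  obtain ⟨v', hv'⟩ := exists_crt D (fun p => if p ∣ g * u then 1 else v * u)
  refine ⟨v', fun a ha => ?_⟩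
  rw [coprime_primorial] at ha ⊢
  intro p hp hpD hdvd
  have h1 := hv' p hp hpD
  by_cases h : p ∣ g * u
  · rw [if_pos h] at h1
    have h2 : v' + a * (g * u) ≡ 1 + 0 [MOD p] :=
      h1.add (Nat.modEq_zero_iff_dvd.2 (Dvd.dvd.mul_left h a))
    have h3 := (Nat.modEq_zero_iff_dvd.2 hdvd).symm.trans h2
    have h4 := (Nat.modEq_zero_iff_dvd.1 h3.symm)
    exact hp.one_lt.ne' (Nat.dvd_one.1 (by simpa using h4))
  · rw [if_neg h] at h1
    have hu : ¬ p ∣ u := fun h' => h (Dvd.dvd.mul_left h' g)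
    have h2 : v' + a * (g * u) ≡ v * u + a * (g * u) [MOD p] := h1.add_right _
    have h3 := (Nat.modEq_zero_iff_dvd.2 hdvd).symm.trans h2
    have h4 := (Nat.modEq_zero_iff_dvd.1 h3.symm)
    have h5 : v * u + a * (g * u) = (v + a * g) * u := by ring
    rw [h5] at h4
    rcases (hp.dvd_mul).1 h4 with h6 | h6
    · exact ha p hp hpD h6
    · exact hu h6

end PoolSim
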