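import Pool.Agent.Work.MP_70e905_nt.Sim.Simul
import Pool.Agent.Work.MP_70e905_nt.Sim.Hits
import Pool.Agent.Work.MP_70e905_nt.Sim.Shift
import Pool.Agent.Work.MP_70e905_nt.Flat.FlatMain

/-!
# Simultaneous multiples of `k` numbers which are differences of two primes
-/

namespace PoolSim

open Finset Classical PoolCL PoolQ4 PoolFlat

private theorem sim_primorial_pos (D : ℕ) : 0 < primorial D := by
  unfold primorial
  exact Finset.prod_pos fun p hp => (mem_filter.1 hp).2.pos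

private theorem sim_primorial_dvd {D₁ D : ℕ} (h : D₁ ≤ D) : primorial D₁ ∣ primorial D := by
  unfold primorial
  refine Finset.prod_dvd_prod_of_subset _ _ _ ?_
  intro p hp
  simp only [mem_filter, mem_range] at hp ⊢
  exact ⟨by omega, hp.2⟩

private theorem diffPrimes_dist (M n z a b : ℕ) (hz : z ≤ 2 * (M * n)) (ha : a < M) (hb : b < M)
    (hpa : (z + a * n).Prime) (hpb : (z + b * n).Prime) :
    DiffPrimes (3 * M * n) (Nat.dist a b * n) := by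
  have hsM := Nat.mul_le_mul_right n ha.le
  have htM := Nat.mul_le_mul_right n hb.le
  rcases le_total a b with hle | hle
  · refine ⟨z + b * n, z + a * n, hpb, hpa, ?_, ?_⟩
    · calc z + b * n ≤ 2 * (M * n) + M * n := by omega
        _ = 3 * M * n := by ring
    · rw [Nat.dist_eq_sub_of_le hle, Nat.sub_mul]
      have := Nat.mul_le_mul_right n hle
      omega
  · refine ⟨z + a * n, z + b * n, hpa, hpb, ?_, ?_⟩
    · calc z + a * n ≤ 2 * (M * n) + M * n := by omega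
        _ = 3 * M * n := by ring
    · rw [Nat.dist_eq_sub_of_le_right hle, Nat.sub_mul]
      have := Nat.mul_le_mul_right n hle
      omega

theorem common_multiples (HC : ∀ N : ℕ, 1 ≤ N → ∃ p : ℝ, 1 / 4 < p ∧ ClusterP N p) (k : ℕ)
    (ε : ℝ) (hε : 0 < ε) :
    ∃ M₀ : ℕ, ∀ n : Fin k → ℕ, (∀ i, 1 ≤ n i) → ∀ g : ℕ, 1 ≤ g → (∀ i, g ∣ n i) →
      ∀ M : ℕ, M₀ ≤ M →
      (1 / (KK k : ℝ) - ε) * ∑ m ∈ Icc 1 M, hl (m * g) ≤
        ∑ m ∈ (Icc 1 M).filter (fun m => ∀ i, DiffPrimes (3 * M * n i) (m * n i)), hl (m * g) := by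
  have hN : ∀ N : ℕ, ∃ L D₁ : ℕ, 1 ≤ N → 0 < L ∧ ∀ W A₀ C : ℕ, 0 < W → primorial D₁ ∣ W → ∃ X₀ : ℕ,
      ∀ (x v : ℕ) (a b : Fin N × Fin L → ℕ), X₀ ≤ x →
      (∀ i, 1 ≤ a i ∧ a i ≤ A₀) → (∀ i, ∀ p : ℕ, p.Prime → p ∣ a i → p ∣ W) →
      (∀ i, b i ≤ C * x) → (∀ i, (a i * v + b i).Coprime W) →
      (∀ i j, i ≠ j → a i * b j ≠ a j * b i) →
      ∃ z : ℕ, x < z ∧ z ≤ 2 * x ∧ z ≡ v [MOD W] ∧ ∃ T : Finset (Fin N), N < 4 * #T ∧
        ∀ c ∈ T, ∃ l : Fin L, (a (c, l) * z + b (c, l)).Prime := by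
    intro N
    by_cases h : 1 ≤ N
    · obtain ⟨p, hp, hC⟩ := HC N h
      obtain ⟨L, D₁, h1, h2⟩ := hits N h p hp hC
      exact ⟨L, D₁, fun _ => ⟨h1, h2⟩⟩
    · exact ⟨0, 0, fun h' => absurd h' h⟩
  choose Lf Df hLD using hN
  obtain ⟨L', hsim⟩ := simul k Lf
  obtain ⟨D₂, hQ⟩ := flat_quarter (KK k) L' (KK_pos k) ε hε
  set D : ℕ := max D₂ ((range (KK k + 2)).sup Df) with hD
  have hDf : ∀ N, N ≤ KK k + 1 → Df N ≤ D := fun N h =>
    (le_sup (f := Df) (mem_range.2 (by omega))).trans (le_max_right _ _)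
  have hX : ∀ N : ℕ, ∃ X₀ : ℕ, 1 ≤ N → N ≤ KK k + 1 → ∀ (x v : ℕ) (a b : Fin N × Fin (Lf N) → ℕ),
      X₀ ≤ x →
      (∀ i, 1 ≤ a i ∧ a i ≤ 1) → (∀ i, ∀ p : ℕ, p.Prime → p ∣ a i → p ∣ primorial D) →
      (∀ i, b i ≤ 1 * x) → (∀ i, (a i * v + b i).Coprime (primorial D)) →
      (∀ i j, i ≠ j → a i * b j ≠ a j * b i) →
      ∃ z : ℕ, x < z ∧ z ≤ 2 * x ∧ z ≡ v [MOD primorial D] ∧ ∃ T : Finset (Fin N), N < 4 * #T ∧
        ∀ c ∈ T, ∃ l : Fin (Lf N), (a (c, l) * z + b (c, l)).Prime := by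
    intro N
    by_cases h : 1 ≤ N ∧ N ≤ KK k + 1
    · obtain ⟨X₀, hX₀⟩ := (hLD N h.1).2 (primorial D) 1 1 (sim_primorial_pos _)
        (sim_primorial_dvd (hDf N h.2))
      exact ⟨X₀, fun _ _ => hX₀⟩
    · exact ⟨0, fun h1 h2 => absurd ⟨h1, h2⟩ h⟩
  choose Xf hXf using hX
  obtain ⟨M₀, hM₀⟩ := hQ D (le_max_left _ _)
  refine ⟨max M₀ ((range (KK k + 2)).sup Xf), fun n hn g hg hgn M hM => ?_⟩
  have hXM : ∀ N, N ≤ KK k + 1 → Xf N ≤ M := fun N h =>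
    (le_sup (f := Xf) (mem_range.2 (by omega))).trans ((le_max_right _ _).trans hM)
  have hfinal := hM₀ g M hg (le_trans (le_max_left _ _) hM)
    (fun m => ∀ i, DiffPrimes (3 * M * n i) (m * n i)) ?_
  · convert hfinal using 3
  intro v h hinj hh hcop _
  obtain ⟨s, t, hst, hgood⟩ := hsim {a | a < M ∧ (v + a * g).Coprime (primorial D)}
    (fun i a b => DiffPrimes (3 * M * n i) (Nat.dist a b * n i)) (by
      intro i N hN1 hN2 f hf hfA
      obtain ⟨v', hv'⟩ := exists_shift D g (n i) v (hgn i)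
      have hni := hn i
      obtain ⟨z, hz1, hz2, -, T, hT1, hT2⟩ := hXf N hN1 hN2 (M * n i) v' (fun _ => 1)
        (fun s => f s * n i) ((hXM N hN2).trans (Nat.le_mul_of_pos_right _ hni))
        (fun _ => ⟨le_rfl, le_rfl⟩)
        (fun _ p hp hd => absurd (Nat.dvd_one.1 hd) hp.one_lt.ne')
        (fun s => by
          rw [one_mul]
          exact Nat.mul_le_mul_right _ (hfA s).1.le)
        (fun s => by
          rw [one_mul]
          exact hv' _ (hfA s).2)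
        (fun s t hst hEq => by
          have h1 : f t * n i = f s * n i := by simpa using hEq
          exact hst (hf (Nat.eq_of_mul_eq_mul_right hni h1)).symm)
      refine ⟨T, hT1, fun c hc c' hc' _ => ?_⟩
      obtain ⟨l, hl⟩ := hT2 c hc
      obtain ⟨l', hl'⟩ := hT2 c' hc'
      rw [one_mul] at hl hl'
      exact ⟨l, l', diffPrimes_dist M (n i) z _ _ hz2 (hfA _).1 (hfA _).1 hl hl'⟩)
    h hinj (fun s => ⟨hh s, hcop s⟩)
  exact ⟨s, t, hst, hgood⟩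

end PoolSim
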