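import Mathlib

/-!
# Families of sets monochromatic in pairs
-/

namespace PoolSim

open Finset Classical

/-- bipartite pigeonhole -/
theorem mono_step {k : ℕ} (c : ℕ → ℕ → Fin k) (n : ℕ) (hn : 1 ≤ n) (A B : Finset ℕ)
    (hA : n * k ≤ #A) (hB : n * k ^ (n * k) ≤ #B) :
    ∃ A' B' : Finset ℕ, A' ⊆ A ∧ B' ⊆ B ∧ n ≤ #A' ∧ n ≤ #B' ∧ ∃ χ : Fin k, ∀ a ∈ A', ∀ b ∈ B', c a b = χ := by
  rcases Nat.eq_zero_or_pos k with rfl | hk
  · exact (c 0 0).elim0
  have : Nonempty (Fin k) := ⟨⟨0, hk⟩⟩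
  obtain ⟨A₀, hA₀, hA₀c⟩ := exists_subset_card_eq hA
  -- the columns
  have hcard : Fintype.card (A₀ → Fin k) = k ^ (n * k) := by
    rw [Fintype.card_fun, Fintype.card_fin, Fintype.card_coe, hA₀c]
  obtain ⟨g, hg⟩ := Fintype.exists_le_card_fiber_of_mul_le_card (α := B) (β := A₀ → Fin k)
    (fun b a => c a b) (n := n) (by
      rw [hcard, Fintype.card_coe, mul_comm]
      exact hB)
  obtain ⟨χ, hχ⟩ := Fintype.exists_le_card_fiber_of_mul_le_card (α := A₀) (β := Fin k)
    g (n := n) (by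
      rw [Fintype.card_fin, Fintype.card_coe, hA₀c, mul_comm])
  refine ⟨(univ.filter (fun a : A₀ => g a = χ)).map (Function.Embedding.subtype _),
    (univ.filter (fun b : B => (fun a : A₀ => c a b) = g)).map (Function.Embedding.subtype _),
    ?_, ?_, ?_, ?_, χ, ?_⟩
  · intro x hx
    obtain ⟨a, _, rfl⟩ := mem_map.1 hx
    exact hA₀ a.2
  · intro x hx
    obtain ⟨a, _, rfl⟩ := mem_map.1 hx
    exact a.2
  · rw [card_map]
    exact hχ
  · rw [card_map]
    exact hg
  · intro x hx y hy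
    obtain ⟨a, ha, rfl⟩ := mem_map.1 hx
    obtain ⟨b, hb, rfl⟩ := mem_map.1 hy
    have h1 := congrFun (mem_filter.1 hb).2 a
    have h2 := (mem_filter.1 ha).2
    simp only [Function.Embedding.subtype_apply]
    rw [h1, h2]

/-- families of sets monochromatic in pairs -/
theorem mono_pairs {k m : ℕ} (hk : 1 ≤ k) (P : Finset (Fin m × Fin m)) :
    ∀ L : ℕ, 1 ≤ L → ∃ L' : ℕ, L ≤ L' ∧ ∀ (c : ℕ → ℕ → Fin k) (A : Fin m → Finset ℕ), (∀ i, L' ≤ #(A i)) →
      ∃ A' : Fin m → Finset ℕ, (∀ i, A' i ⊆ A i) ∧ (∀ i, L ≤ #(A' i)) ∧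
        ∀ p ∈ P, p.1 ≠ p.2 → ∃ χ : Fin k, ∀ a ∈ A' p.1, ∀ b ∈ A' p.2, c a b = χ := by
  induction P using Finset.induction_on with
  | empty =>
    intro L _
    exact ⟨L, le_rfl, fun c A hA => ⟨A, fun i => Subset.refl _, hA, by simp⟩⟩
  | insert p P _ ih =>
    intro L hL
    obtain ⟨L₁, hL₁, h⟩ := ih L hL
    have hL1 : 1 ≤ L₁ := hL.trans hL₁
    have hk1 : 1 ≤ k ^ (L₁ * k) := Nat.one_le_pow _ _ hk
    refine ⟨L₁ * k ^ (L₁ * k), hL₁.trans (Nat.le_mul_of_pos_right _ hk1), fun c A hA => ?_⟩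
    by_cases hp : p.1 ≠ p.2
    · have hle : L₁ * k ≤ L₁ * k ^ (L₁ * k) := by
        refine Nat.mul_le_mul_left _ ?_
        refine Nat.le_self_pow ?_ k
        exact Nat.mul_ne_zero (by omega) (by omega)
      obtain ⟨A₁, A₂, h1, h2, h3, h4, χ, h5⟩ := mono_step c L₁ hL1 (A p.1) (A p.2)
        (hle.trans (hA _)) (hA _)
      obtain ⟨A', h6, h7, h8⟩ := h c (Function.update (Function.update A p.1 A₁) p.2 A₂) (by
        intro i
        by_cases hi2 : i = p.2
        · subst hi2
          simpa using h4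
        · rw [Function.update_of_ne hi2]
          by_cases hi1 : i = p.1
          · subst hi1
            simpa using h3
          · rw [Function.update_of_ne hi1]
            exact (Nat.le_mul_of_pos_right _ hk1).trans (hA i))
      have hA1 : A' p.1 ⊆ A₁ := by
        have := h6 p.1
        rwa [Function.update_of_ne hp, Function.update_self] at this
      have hA2 : A' p.2 ⊆ A₂ := by
        have := h6 p.2
        rwa [Function.update_self] at this
      refine ⟨A', fun i => ?_, h7, fun q hq hq2 => ?_⟩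
      · by_cases hi2 : i = p.2
        · subst hi2
          exact hA2.trans h2
        · by_cases hi1 : i = p.1
          · subst hi1
            exact hA1.trans h1
          · have := h6 i
            rwa [Function.update_of_ne hi2, Function.update_of_ne hi1] at this
      · rcases mem_insert.1 hq with rfl | hq
        · exact ⟨χ, fun a ha b hb => h5 a (hA1 ha) b (hA2 hb)⟩
        · exact h8 q hq hq2
    · obtain ⟨A', h6, h7, h8⟩ := h c A (fun i => (Nat.le_mul_of_pos_right _ hk1).trans (hA i))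
      refine ⟨A', h6, h7, fun q hq hq2 => ?_⟩
      rcases mem_insert.1 hq with rfl | hq
      · exact absurd hq2 hp
      · exact h8 q hq hq2

end PoolSim
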