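import Pool.Agent.Work.MP_70e905_nt.Sim.Simul
import Pool.Agent.Work.MP_70e905_nt.Sim.Hits

/-!
# Sim.Near : simultaneous near differences of primes

As `Eta/One.lean`, with more than a quarter of the clusters hit at once: for all `h 0 ≤ ... ≤ h K ≤ x` there is
a set `S` of more than `(K + 1) / 4` indices such that for all `c < d` in `S` some difference of two primes in
`(x, C x]` exceeds `h d - h c` by at most `C`.
-/

namespace PoolSim

open Finset PoolCL

private theorem one_primorial_pos (D : ℕ) : 0 < primorial D := by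
  unfold primorial
  exact Finset.prod_pos fun p hp => (mem_filter.1 hp).2.pos

/-- `b - a` is up to `C` a difference of two primes in `(x, C x]` -/
def Near (C x a b : ℕ) : Prop := ∃ p q : ℕ, p.Prime ∧ q.Prime ∧ x < q ∧ p ≤ C * x ∧
  q + b < p + a ∧ p + a ≤ q + b + C

theorem eta_hits (K : ℕ) (p₀ : ℝ) (hp₀ : 1 / 4 < p₀) (H : ClusterP (K + 1) p₀) :
    ∃ C : ℕ, ∀ x : ℕ, 1 ≤ x → ∀ h : Fin (K + 1) → ℕ, Monotone h → (∀ c, h c ≤ x) →
      ∃ S : Finset (Fin (K + 1)), K + 1 < 4 * #S ∧ ∀ c ∈ S, ∀ d ∈ S, c < d → Near C x (h c) (h d) := by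
  obtain ⟨L, D₁, hL, HC⟩ := hits (K + 1) (by omega) p₀ hp₀ H
  set W : ℕ := primorial D₁ with hWd
  have hW : 0 < W := one_primorial_pos _
  set T : ℕ := W * (L + 1) with hT
  have hTL : T = W * L + W := by rw [hT]; ring
  obtain ⟨X₀, hX⟩ := HC W 1 (1 + (K + 1) * T) hW dvd_rfl
  refine ⟨(3 + (K + 1) * T) * (X₀ + 1) + (K + 1) * T, fun x hx1 h hmono hhx => ?_⟩
  set x' : ℕ := max x X₀ with hx'
  have hx'1 : x ≤ x' := le_max_left _ _
  have hx'2 : X₀ ≤ x' := le_max_right _ _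
  have hx'3 : x' ≤ (X₀ + 1) * x := by
    rw [hx', max_le_iff]
    constructor <;> nlinarith
  let t : Fin (K + 1) × Fin L → ℕ := fun s => s.1.1 * T + ((W - (h s.1) % W) + W * s.2.1)
  let b : Fin (K + 1) × Fin L → ℕ := fun s => h s.1 + t s
  have ht1 : ∀ s, s.1.1 * T + 1 ≤ t s := by
    intro s
    have := Nat.mod_lt (h s.1) hW
    show s.1.1 * T + 1 ≤ s.1.1 * T + ((W - (h s.1) % W) + W * s.2.1)
    omega
  have ht2 : ∀ s, t s ≤ s.1.1 * T + W * L := by
    intro s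
    have h1 : s.2.1 + 1 ≤ L := s.2.2
    have h2 : W * s.2.1 + W ≤ W * L := by
      calc W * s.2.1 + W = W * (s.2.1 + 1) := by ring
        _ ≤ W * L := Nat.mul_le_mul_left _ h1
    show s.1.1 * T + ((W - (h s.1) % W) + W * s.2.1) ≤ s.1.1 * T + W * L
    omega
  have hbW : ∀ s, W ∣ b s := by
    intro s
    have h1 : b s = W * ((h s.1) / W) + W + W * s.2.1 + s.1.1 * T := by
      have h2 := Nat.div_add_mod (h s.1) W
      have h3 := Nat.mod_lt (h s.1) hW
      show h s.1 + (s.1.1 * T + ((W - (h s.1) % W) + W * s.2.1)) = _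
      omega
    rw [h1]
    exact ⟨(h s.1) / W + 1 + s.2.1 + s.1.1 * (L + 1), by rw [hT]; ring⟩
  have hsK : ∀ s : Fin (K + 1) × Fin L, s.1.1 ≤ K := fun s => by
    have := s.1.2
    omega
  have htK : ∀ s, t s ≤ (K + 1) * T := by
    intro s
    have h1 := ht2 s
    have h2 : s.1.1 * T ≤ K * T := Nat.mul_le_mul_right _ (hsK s)
    have h3 : (K + 1) * T = K * T + T := by ring
    omega
  have hbx : ∀ s, b s ≤ (1 + (K + 1) * T) * x' := by
    intro s
    have h1 : h s.1 ≤ x' := (hhx _).trans hx'1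
    have h2 := htK s
    have h3 : (K + 1) * T ≤ (K + 1) * T * x' := Nat.le_mul_of_pos_right _ (by omega)
    show h s.1 + t s ≤ _
    have h4 : (1 + (K + 1) * T) * x' = x' + (K + 1) * T * x' := by ring
    omega
  have htlt : ∀ s s' : Fin (K + 1) × Fin L, s.1 < s'.1 → t s < t s' := by
    intro s s' h
    have h1 : s.1.1 + 1 ≤ s'.1.1 := h
    have h2 : (s.1.1 + 1) * T ≤ s'.1.1 * T := Nat.mul_le_mul_right _ h1
    have h3 := ht2 s
    have h4 := ht1 s'
    have h6 : (s.1.1 + 1) * T = s.1.1 * T + T := by ring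
    omega
  have hlt : ∀ s s' : Fin (K + 1) × Fin L, s.1 < s'.1 → b s < b s' := by
    intro s s' hs
    have h2 : h s.1 ≤ h s'.1 := hmono hs.le
    have h3 := htlt s s' hs
    show h s.1 + t s < h s'.1 + t s'
    omega
  have hne : ∀ s s', s ≠ s' → b s ≠ b s' := by
    intro s s' hss hb
    rcases lt_trichotomy s.1 s'.1 with h1 | h1 | h1
    · exact absurd hb (hlt s s' h1).ne
    · have h2 : s.2.1 ≠ s'.2.1 := fun h3 => hss (Prod.ext h1 (Fin.ext h3))
      have h4 : W * s.2.1 = W * s'.2.1 := by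
        have h5 : h s.1 + (s.1.1 * T + ((W - (h s.1) % W) + W * s.2.1)) =
          h s'.1 + (s'.1.1 * T + ((W - (h s'.1) % W) + W * s'.2.1)) := hb
        rw [h1] at h5
        omega
      exact h2 (Nat.eq_of_mul_eq_mul_left hW h4)
    · exact absurd hb (hlt s' s h1).ne'
  obtain ⟨z, hz1, hz2, -, S, hS1, hS2⟩ := hX x' 1 (fun _ => 1) b hx'2
    (fun _ => ⟨le_rfl, le_rfl⟩)
    (fun _ p hp hd => absurd (Nat.dvd_one.1 hd) hp.one_lt.ne')
    hbx
    (fun s => by
      obtain ⟨k, hk⟩ := hbW s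
      show (1 * 1 + b s).Coprime W
      rw [hk, mul_one, Nat.coprime_add_mul_left_left]
      exact Nat.coprime_one_left W)
    (fun s s' hss h => hne s s' hss (by simpa using h.symm))
  simp only [one_mul] at hS2
  refine ⟨S, hS1, fun c hc d hd hcd => ?_⟩
  obtain ⟨l, hl⟩ := hS2 c hc
  obtain ⟨l', hl'⟩ := hS2 d hd
  have hbi : b (c, l) = h c + t (c, l) := rfl
  have hbj : b (d, l') = h d + t (d, l') := rfl
  have htij := htlt (c, l) (d, l') hcd
  refine ⟨z + b (d, l'), z + b (c, l), hl', hl, by omega, ?_, by omega, ?_⟩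
  · have h1 := hbx (d, l')
    have h2 : z + b (d, l') ≤ (3 + (K + 1) * T) * x' := by
      have h3 : (3 + (K + 1) * T) * x' = 2 * x' + (1 + (K + 1) * T) * x' := by ring
      omega
    refine h2.trans ?_
    calc (3 + (K + 1) * T) * x' ≤ (3 + (K + 1) * T) * ((X₀ + 1) * x) :=
          Nat.mul_le_mul_left _ hx'3
      _ = (3 + (K + 1) * T) * (X₀ + 1) * x := by ring
      _ ≤ ((3 + (K + 1) * T) * (X₀ + 1) + (K + 1) * T) * x :=
          Nat.mul_le_mul_right _ (Nat.le_add_right _ _)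
  · have h4 := htK (d, l')
    omega

theorem Near.mono {C C' x a b : ℕ} (hC : C ≤ C') (h : Near C x a b) : Near C' x a b := by
  obtain ⟨p, q, hp, hq, h1, h2, h3, h4⟩ := h
  exact ⟨p, q, hp, hq, h1, h2.trans (Nat.mul_le_mul_right _ hC), h3, by omega⟩

theorem near_sim (HC : ∀ N : ℕ, 1 ≤ N → ∃ p : ℝ, 1 / 4 < p ∧ ClusterP N p) (k : ℕ) :
    ∃ C : ℕ, ∀ x : Fin k → ℕ, (∀ i, 1 ≤ x i) → ∀ h : Fin k → Fin (KK k + 1) → ℕ,
      (∀ i, Monotone (h i)) → (∀ i c, h i c ≤ x i) →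
      ∃ c d : Fin (KK k + 1), c < d ∧ ∀ i, Near C (x i) (h i c) (h i d) := by
  induction k with
  | zero =>
    exact ⟨0, fun x _ h _ _ => ⟨⟨0, by simp⟩, ⟨1, by simp [KK]⟩, by simp [Fin.lt_def],
      fun i => i.elim0⟩⟩
  | succ k ih =>
    obtain ⟨C₀, hC₀⟩ := ih
    have hKpos := KK_pos k
    have hKK : KK (k + 1) + 1 = 4 * KK k := by
      have : KK (k + 1) = 4 * KK k - 1 := rfl
      omega
    obtain ⟨p₀, hp₀, HP⟩ := HC (KK (k + 1) + 1) (by omega)
    obtain ⟨C₁, hC₁⟩ := eta_hits (KK (k + 1)) p₀ hp₀ HP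
    refine ⟨max C₀ C₁, fun x hx h hmono hle => ?_⟩
    obtain ⟨S, hS1, hS2⟩ := hC₁ (x (Fin.last k)) (hx _) (h (Fin.last k)) (hmono _) (hle _)
    have hSK : KK k + 1 ≤ #S := by omega
    obtain ⟨S', hS'S, hS'c⟩ := exists_subset_card_eq hSK
    set e := S'.orderEmbOfFin hS'c with he
    have heS : ∀ i, e i ∈ S := fun i => hS'S (S'.orderEmbOfFin_mem hS'c i)
    obtain ⟨c, d, hcd, hnear⟩ := hC₀ (fun i => x i.castSucc) (fun i => hx _)
      (fun i c => h i.castSucc (e c)) (fun i a b hab => hmono _ (e.monotone hab))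
      (fun i c => hle _ _)
    have hecd : e c < e d := e.strictMono hcd
    refine ⟨e c, e d, hecd, fun i => ?_⟩
    refine Fin.lastCases ?_ (fun i => ?_) i
    · exact (hS2 _ (heS c) _ (heS d) hecd).mono (le_max_right _ _)
    · exact (hnear i).mono (le_max_left _ _)

end PoolSim
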